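import Pool.Agent.H112R2.John
import Pool.Agent.H104.MC.Mil
import Pool.Agent.Q123.VP.H

/-!
# The discrete John theorem for convex bodies, with a covering
-/

set_option autoImplicit false

namespace H104.BS

open Finset MeasureTheory Pool.Agent.Y806.DF Q123.VP H104.MC
open scoped Pointwise ENNReal

variable {n k : ℕ}

theorem zero_mem_interior {B : Set (Fin n → ℝ)} (hB : Body B) : (0 : Fin n → ℝ) ∈ interior B := by
  obtain ⟨x, hx⟩ := hB.2.2.1
  have hneg : -B = B := by
    ext y
    rw [Set.mem_neg]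
    constructor
    · intro h
      have := hB.2.2.2 _ h
      rwa [neg_neg] at this
    · exact hB.2.2.2 y
  have h1 : -x ∈ interior B := by
    have h2 : -(interior B) = interior B := by
      have h3 := (Homeomorph.neg (Fin n → ℝ)).preimage_interior B
      have h4 : (Homeomorph.neg (Fin n → ℝ)) ⁻¹' interior B = -(interior B) := rfl
      have h5 : (Homeomorph.neg (Fin n → ℝ)) ⁻¹' B = -B := rfl
      rw [h4, h5, hneg] at h3
      exact h3
    rw [← h2, Set.mem_neg, neg_neg]
    exact hx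
  have h6 := hB.1.interior hx h1 (a := 1 / 2) (b := 1 / 2) (by norm_num) (by norm_num) (by norm_num)
  have h7 : (1 / 2 : ℝ) • x + (1 / 2 : ℝ) • -x = 0 := by
    rw [smul_neg, add_neg_cancel]
  rwa [h7] at h6

/-- The norm of a symmetric convex body. -/
theorem exists_norm {B : Set (Fin n → ℝ)} (hB : Body B) :
    ∃ N : Seminorm ℝ (Fin n → ℝ), H112.LL N 1 = lat B := by
  have h0 : B ∈ nhds (0 : Fin n → ℝ) := mem_interior_iff_mem_nhds.1 (zero_mem_interior hB)
  have hbal : Balanced ℝ B := (balanced_iff_neg_mem hB.1).2 fun x hx => hB.2.2.2 x hx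
  refine ⟨gaugeSeminorm hbal hB.1 (absorbent_nhds_zero h0), ?_⟩
  ext c
  show gauge B (fun i => (c i : ℝ)) ≤ 1 ↔ re c ∈ B
  rw [gauge_le_one_iff_mem_closure hB.1 h0, hB.2.1.isClosed.closure_eq]
  rfl

/-- The linear map given by `k` integer vectors. -/
def lin (v : Fin k → (Fin n → ℤ)) : (Fin k → ℤ) →+ (Fin n → ℤ) where
  toFun a := ∑ i, a i • v i
  map_zero' := by simp
  map_add' a b := by
    rw [← sum_add_distrib]
    exact sum_congr rfl fun i _ => by rw [Pi.add_apply, add_smul]

theorem lin_inj {v : Fin k → (Fin n → ℤ)} (hv : LinearIndependent ℤ v) :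
    Function.Injective (lin v) := by
  intro a b h
  have h1 : ∑ i, (a i - b i) • v i = 0 := by
    have h2 : ∑ i, a i • v i = ∑ i, b i • v i := h
    calc ∑ i, (a i - b i) • v i = ∑ i, (a i • v i - b i • v i) :=
          sum_congr rfl fun i _ => sub_smul _ _ _
      _ = 0 := by rw [sum_sub_distrib, h2, sub_self]
  have h3 := Fintype.linearIndependent_iff.1 hv (fun i => a i - b i) h1
  funext i
  have := h3 i
  omega

/-- **The discrete John theorem for convex bodies.** -/
theorem john_body {B : Set (Fin n → ℝ)} (hB : Body B) :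
    ∃ (k : ℕ) (v : Fin k → (Fin n → ℤ)) (L : Fin k → ℕ), k ≤ n ∧ LinearIndependent ℤ v ∧
      (∀ a ∈ bx L, lin v a ∈ lat B) ∧
      (lat B).ncard ≤ (4 * k ^ 3) ^ k * (bx L).ncard := by
  obtain ⟨N, hN⟩ := exists_norm hB
  have hfin : (H112.LL N 1).Finite := by
    rw [hN]
    exact lat_finite hB.2.1.isBounded
  obtain ⟨k, v, L, h1, h2, h3, h4⟩ := H112.discrete_john N zero_le_one hfin
  refine ⟨k, v, L, h1, h2, ?_, ?_⟩
  · intro a ha
    rw [← hN]
    exact h3 a ha
  · rw [← hN, bx_ncard]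
    exact h4

/-- The covering by translates of the box. -/
theorem john_cover {B : Set (Fin n → ℝ)} (hB : Body B) {v : Fin k → (Fin n → ℤ)} {L : Fin k → ℕ}
    (hv : LinearIndependent ℤ v) (hin : ∀ a ∈ bx L, lin v a ∈ lat B) {M : ℕ}
    (hM : (lat B).ncard ≤ M * (bx L).ncard) :
    ∃ F : Finset (Fin n → ℤ), F.card ≤ 4 ^ n * M ∧
      ∀ x ∈ lat B, ∃ f ∈ F, ∃ b ∈ bx (fun i => 2 * L i), x = f + lin v b := by
  classical
  have hS := sym_of_body hB
  have hfin : (lat B).Finite := lat_finite hS.comp.isBounded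
  have hbfin := bx_finite L
  set A := hfin.toFinset with hA
  set Q := hbfin.toFinset.image (lin v) with hQ
  have hQc : Q.card = (bx L).ncard := by
    rw [hQ, card_image_of_injective _ (lin_inj hv), Set.ncard_eq_toFinset_card _ hbfin]
  have hAc : A.card = (lat B).ncard := (Set.ncard_eq_toFinset_card _ hfin).symm
  have hQne : Q.Nonempty := by
    refine ⟨lin v 0, mem_image.2 ⟨0, ?_, rfl⟩⟩
    rw [Set.Finite.mem_toFinset]
    intro i
    simp
  have h2fin := hS.finite 2
  have hsum : A + Q ⊆ h2fin.toFinset := by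
    intro z hz
    obtain ⟨a, ha, q, hq, rfl⟩ := mem_add.1 hz
    obtain ⟨b, hb, rfl⟩ := mem_image.1 hq
    rw [Set.Finite.mem_toFinset] at hb ⊢
    rw [hA, Set.Finite.mem_toFinset] at ha
    have h := hS.add (s := 1) (t := 1) zero_le_one zero_le_one (v := a) (w := lin v b)
      (by rw [one_smul]; exact ha) (by rw [one_smul]; exact hin b hb)
    norm_num at h
    exact h
  have h1 : (A + Q).card ≤ (4 ^ n * M) * Q.card := by
    have h2 := num_double hS (t := 1) zero_le_one
    rw [mul_one] at h2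
    have h3 : num B 1 = A.card := by
      unfold num
      rw [one_smul, hAc]
    have h4 : h2fin.toFinset.card = num B 2 := (Set.ncard_eq_toFinset_card _ h2fin).symm
    calc (A + Q).card ≤ h2fin.toFinset.card := card_le_card hsum
      _ = num B 2 := h4
      _ ≤ 4 ^ n * A.card := by rw [← h3]; exact h2
      _ ≤ 4 ^ n * (M * Q.card) := by
        rw [hAc, hQc]
        exact Nat.mul_le_mul_left _ hM
      _ = _ := by ring
  have h1' : ((A + Q).card : ℝ) ≤ ((4 ^ n * M : ℕ) : ℝ) * Q.card := by exact_mod_cast h1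
  obtain ⟨F, -, hF, hcov⟩ := ruzsa_covering_add hQne h1'
  refine ⟨F, by exact_mod_cast hF, ?_⟩
  intro x hx
  have hx' : x ∈ A := by
    rw [hA, Set.Finite.mem_toFinset]
    exact hx
  obtain ⟨f, hf, w, hw, rfl⟩ := mem_add.1 (hcov hx')
  obtain ⟨p, hp, q, hq, rfl⟩ := mem_sub.1 hw
  obtain ⟨a, ha, rfl⟩ := mem_image.1 hp
  obtain ⟨b, hb, rfl⟩ := mem_image.1 hq
  rw [Set.Finite.mem_toFinset] at ha hb
  refine ⟨f, hf, a - b, ?_, by rw [map_sub]⟩
  intro i
  have h5 := ha i
  have h6 := hb i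
  rw [Pi.sub_apply]
  push_cast
  rw [abs_le] at h5 h6 ⊢
  constructor <;> omega

end H104.BS
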