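import Pool.Agent.H104.BS.A
import Pool.Agent.Q123.VP.E

/-!
# Proper coset progressions inside improper convex coset progressions
-/

set_option autoImplicit false

namespace H104.BS

open Finset MeasureTheory Pool.Agent.Y806.DF Q123.VP H104.MC
open scoped Pointwise ENNReal

variable {n k : ℕ} {Γ : Type*} [AddCommGroup Γ]

/-- The ellipsoid inside the box. -/
noncomputable def iT (L : Fin k → ℕ) : (Fin k → ℝ) ≃ₗ[ℝ] (Fin k → ℝ) :=
  LinearEquiv.piCongrRight fun i => LinearEquiv.smulOfNeZero ℝ ℝ (2 / (stp L i : ℝ)) (by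
    have h1 : (0 : ℝ) < stp L i := by exact_mod_cast stp_pos L i
    positivity)

theorem form_iT (L : Fin k → ℕ) (x : Fin k → ℝ) :
    form (iT L) x x = ∑ i, (2 * x i / stp L i) ^ 2 := by
  unfold form
  refine sum_congr rfl fun i _ => ?_
  have h : iT L x i = (2 / (stp L i : ℝ)) * x i := rfl
  rw [h]
  ring

theorem lat_iT_subset (L : Fin k → ℕ) : lat (ell (iT L)) ⊆ bx L := by
  intro x hx i
  have h : form (iT L) (re x) (re x) ≤ 1 := hx
  rw [form_iT] at h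
  have hst : (0 : ℝ) < stp L i := by exact_mod_cast stp_pos L i
  have h1 : (2 * re x i / stp L i) ^ 2 ≤ 1 :=
    le_trans (single_le_sum (f := fun i => (2 * re x i / stp L i) ^ 2)
      (fun i _ => sq_nonneg _) (mem_univ i)) h
  have h2 : |2 * re x i / stp L i| ≤ 1 := (sq_le_one_iff_abs_le_one _).1 h1
  rw [abs_div, abs_of_pos hst, div_le_one hst] at h2
  have h3 : |2 * (x i : ℝ)| ≤ stp L i := h2
  have h4 : |2 * x i| ≤ (stp L i : ℤ) := by exact_mod_cast h3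
  unfold stp at h4
  rw [abs_le] at h4 ⊢
  rcases Nat.eq_zero_or_pos (L i) with h5 | h5
  · rw [h5] at h4 ⊢
    norm_num at h4
    omega
  · rw [max_eq_left h5] at h4
    omega

theorem bx_two_subset (L : Fin k → ℕ) :
    bx (fun i => 2 * L i) ⊆ lat ((4 * ((k : ℝ) + 1)) • ell (iT L)) := by
  intro x hx
  obtain ⟨s, hs⟩ : ∃ s : ℝ, s = 4 * ((k : ℝ) + 1) := ⟨_, rfl⟩
  have hk0 : (0 : ℝ) ≤ k := Nat.cast_nonneg k
  have hs0 : 0 < s := by rw [hs]; positivity
  rw [← hs]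
  show re x ∈ s • ell (iT L)
  rw [Set.mem_smul_set_iff_inv_smul_mem₀ hs0.ne']
  show form (iT L) (s⁻¹ • re x) (s⁻¹ • re x) ≤ 1
  rw [form_smul_left, form_smul_right, form_iT]
  have h1 : ∑ i, (2 * re x i / stp L i) ^ 2 ≤ (16 : ℝ) * (k : ℝ) := by
    calc ∑ i, (2 * re x i / stp L i) ^ 2 ≤ ∑ _i : Fin k, (16 : ℝ) := by
          refine sum_le_sum fun i _ => ?_
          have hst : (0 : ℝ) < stp L i := by exact_mod_cast stp_pos L i
          have h2 : |x i| ≤ ((2 * L i : ℕ) : ℤ) := hx i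
          have h3 : |(x i : ℝ)| ≤ 2 * stp L i := by
            have h4 : (L i : ℝ) ≤ stp L i := by exact_mod_cast le_max_left _ _
            have h5 : |(x i : ℝ)| ≤ 2 * (L i : ℝ) := by exact_mod_cast h2
            linarith
          have h6 : |2 * re x i / stp L i| ≤ 4 := by
            rw [abs_div, abs_of_pos hst, div_le_iff₀ hst, abs_mul, abs_two]
            have h7 : |re x i| = |(x i : ℝ)| := rfl
            rw [h7]
            linarith
          calc (2 * re x i / stp L i) ^ 2 = |2 * re x i / stp L i| ^ 2 := (sq_abs _).symm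
            _ ≤ 4 ^ 2 := pow_le_pow_left₀ (abs_nonneg _) h6 2
            _ = 16 := by norm_num
      _ = 16 * k := by rw [sum_const, card_univ, Fintype.card_fin, nsmul_eq_mul, mul_comm]
  have h8 : s⁻¹ * (s⁻¹ * ∑ i, (2 * re x i / stp L i) ^ 2) ≤ s⁻¹ * (s⁻¹ * (16 * (k : ℝ))) := by
    have h0 : 0 ≤ s⁻¹ := by positivity
    exact mul_le_mul_of_nonneg_left (mul_le_mul_of_nonneg_left h1 h0) h0
  refine h8.trans ?_
  have h9 : s⁻¹ * (s⁻¹ * (16 * (k : ℝ))) = (16 * (k : ℝ)) / (s * s) := by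
    field_simp
  rw [h9, div_le_one (by positivity), hs]
  nlinarith

theorem volume_ell_pos (T : (Fin k → ℝ) ≃ₗ[ℝ] (Fin k → ℝ)) : 0 < (volume (ell T)).toReal := by
  rw [ENNReal.toReal_pos_iff]
  refine ⟨?_, (ell_compact T).measure_lt_top⟩
  have hop : IsOpen {x : Fin k → ℝ | form T x x < 1} :=
    isOpen_lt (continuous_form_diag T) continuous_const
  have h0 : (0 : Fin k → ℝ) ∈ {x : Fin k → ℝ | form T x x < 1} := by
    show form T 0 0 < 1
    have : form T 0 0 = 0 := by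
      unfold form
      simp
    rw [this]
    exact one_pos
  refine lt_of_lt_of_le (hop.measure_pos volume ⟨0, h0⟩) (measure_mono ?_)
  intro x hx
  exact le_of_lt (show form T x x < 1 from hx)

theorem cover_ell (T : (Fin k → ℝ) ≃ₗ[ℝ] (Fin k → ℝ)) {s : ℝ} (hs : 1 ≤ s) :
    ∃ F : Finset (Fin k → ℤ), (F.card : ℝ) ≤ (3 * s) ^ k ∧
      ∀ v ∈ lat (s • ell T), ∃ f ∈ F, ∃ w ∈ lat (ell T), v = f + w := by
  have hsub : ell T ⊆ s • ell T := by
    have h1 := (ell_sym T).mono (s := 1) (t := s) zero_le_one hs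
    rwa [one_smul] at h1
  have hvol : (volume (s • ell T)).toReal ≤ s ^ k * (volume (ell T)).toReal := by
    rw [Measure.addHaar_smul, Module.finrank_fin_fun, ENNReal.toReal_mul,
      ENNReal.toReal_ofReal (abs_nonneg _), abs_of_nonneg (by positivity)]
  obtain ⟨F, hF, hcov⟩ := cover_volume ((ell_sym T).smul s) (ell_sym T) hsub (volume_ell_pos T) hvol
  refine ⟨F, ?_, hcov⟩
  rw [mul_pow]
  exact hF

theorem img_comp (ψ : (Fin n → ℤ) →+ Γ) (H : AddSubgroup Γ) (V : (Fin k → ℤ) →+ (Fin n → ℤ))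
    (S : Set (Fin k → ℤ)) : img (ψ.comp V) H S = img ψ H (V '' S) := by
  ext g
  constructor
  · rintro ⟨x, hx, h, hh, rfl⟩
    exact ⟨V x, ⟨x, hx, rfl⟩, h, hh, rfl⟩
  · rintro ⟨_, ⟨x, hx, rfl⟩, h, hh, rfl⟩
    exact ⟨x, hx, h, hh, rfl⟩

theorem ncard_img_comp (ψ : (Fin n → ℤ) →+ Γ) (H : AddSubgroup Γ) [Finite H]
    {S : Set (Fin n → ℤ)} {S' : Set (Fin k → ℤ)} (hS' : S'.Finite)
    (V : (Fin k → ℤ) →+ (Fin n → ℤ)) (F : Finset (Fin n → ℤ))
    (h : ∀ x ∈ S, ∃ f ∈ F, ∃ w ∈ S', x = f + V w) :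
    (img ψ H S).ncard ≤ F.card * (img (ψ.comp V) H S').ncard := by
  rw [img_comp]
  refine ncard_le_translates ψ H (hS'.image V) F fun x hx => ?_
  obtain ⟨f, hf, w, hw, e⟩ := h x hx
  exact ⟨f, hf, V w, ⟨w, hw, rfl⟩, e⟩

theorem ncard_img_le (ψ : (Fin n → ℤ) →+ Γ) (H : AddSubgroup Γ) [Finite H]
    {S : Set (Fin n → ℤ)} (hS : S.Finite) :
    (img ψ H S).ncard ≤ S.ncard * Nat.card H := by
  have h1 : img ψ H S = (fun p : (Fin n → ℤ) × Γ => ψ p.1 + p.2) '' (S ×ˢ (H : Set Γ)) := by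
    ext g
    constructor
    · rintro ⟨x, hx, h, hh, rfl⟩
      exact ⟨(x, h), ⟨hx, hh⟩, rfl⟩
    · rintro ⟨⟨x, h⟩, ⟨hx, hh⟩, rfl⟩
      exact ⟨x, hx, h, hh, rfl⟩
  have hH : (H : Set Γ).Finite := Set.toFinite _
  rw [h1]
  refine (Set.ncard_image_le (hS.prod hH)).trans ?_
  rw [Set.ncard_prod]
  exact le_of_eq rfl

/-- The loss of the theorem. -/
def loss (n : ℕ) : ℕ := (12288 * (n + 1) ^ 7) ^ n

theorem loss_bound {n k k₂ : ℕ} (hk : k ≤ n) (hk₂ : k₂ ≤ k) :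
    (4 ^ n * (4 * k ^ 3) ^ k) * ((12 * (k + 1)) ^ k * (16 ^ k * (4 * k₂ ^ 3) ^ k₂)) ≤ loss n := by
  have e : loss n = (4 ^ n * (4 * (n + 1) ^ 3) ^ n) *
      ((12 * (n + 1)) ^ n * (16 ^ n * (4 * (n + 1) ^ 3) ^ n)) := by
    unfold loss
    simp only [← mul_pow]
    ring
  rw [e]
  have mono : ∀ {a b i j : ℕ}, a ≤ b → 1 ≤ b → i ≤ j → a ^ i ≤ b ^ j := fun hab hb hij =>
    (Nat.pow_le_pow_left hab _).trans (Nat.pow_le_pow_right hb hij)
  have hk3 : k ^ 3 ≤ (n + 1) ^ 3 := Nat.pow_le_pow_left (by omega) 3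
  have hk3' : k₂ ^ 3 ≤ (n + 1) ^ 3 := Nat.pow_le_pow_left (by omega) 3
  have h13 : 1 ≤ (n + 1) ^ 3 := Nat.one_le_pow _ _ (by omega)
  refine Nat.mul_le_mul (Nat.mul_le_mul_left _ (mono (by omega) (by omega) hk))
    (Nat.mul_le_mul (mono (by omega) (by omega) hk) (Nat.mul_le_mul (mono le_rfl (by omega) hk)
      (mono (by omega) (by omega) (hk₂.trans hk))))

/-- **A proper coset progression inside an improper convex one.** -/
theorem inner_proper {B : Set (Fin n → ℝ)} (hB : Body B) (ψ : (Fin n → ℤ) →+ Γ)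
    (H : AddSubgroup Γ) [Finite H] :
    ∃ (k : ℕ) (w : Fin k → (Fin n → ℤ)) (L : Fin k → ℕ), k ≤ n ∧
      (∀ a ∈ bx L, lin w a ∈ lat B) ∧
      (∀ a ∈ bx L, ∀ a' ∈ bx L, ψ (lin w a) - ψ (lin w a') ∈ H → a = a') ∧
      (img ψ H (lat B)).ncard ≤ loss n * (Nat.card H * (bx L).ncard) := by
  obtain ⟨k, v, L, hk, hv, hin, hc⟩ := john_body hB
  obtain ⟨F₁, hF₁, hcov₁⟩ := john_cover hB hv hin hc
  set ψ' := ψ.comp (lin v) with hψ'
  set T := iT L with hT
  obtain ⟨F₂, hF₂, hcov₂⟩ := cover_ell T (s := 4 * ((k : ℝ) + 1)) (by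
    have : (0 : ℝ) ≤ k := Nat.cast_nonneg k
    linarith)
  have hF₂' : F₂.card ≤ (12 * (k + 1)) ^ k := by
    have : (F₂.card : ℝ) ≤ (((12 * (k + 1)) ^ k : ℕ) : ℝ) := by
      push_cast
      calc (F₂.card : ℝ) ≤ (3 * (4 * ((k : ℝ) + 1))) ^ k := hF₂
        _ = _ := by ring
    exact_mod_cast this
  -- the cell and its quarter
  obtain ⟨B', hB', hBl⟩ := fatten ((kcell_sym T ψ' H).smul (1 / 4))
  obtain ⟨k₂, v₂, L₂, hk₂, hv₂, hin₂, hc₂⟩ := john_body hB'
  rw [hBl] at hin₂ hc₂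
  have hcell : ∀ a ∈ bx L₂, lin v₂ a ∈ lat (ell T) := by
    intro a ha
    have h1 := hin₂ a ha
    have h2 := (kcell_sym T ψ' H).mono (s := 1 / 4) (t := 1) (by norm_num) (by norm_num)
    rw [one_smul] at h2
    exact lat_mono (h2.trans (cell_subset T _)) h1
  have hw : ∀ a : Fin k₂ → ℤ, lin (fun j => lin v (v₂ j)) a = lin v (lin v₂ a) := by
    intro a
    have h1 : lin v (lin v₂ a) = lin v (∑ j, a j • v₂ j) := rfl
    rw [h1, map_sum]
    show ∑ j, a j • lin v (v₂ j) = _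
    exact sum_congr rfl fun j _ => (map_zsmul (lin v) _ _).symm
  refine ⟨k₂, fun j => lin v (v₂ j), L₂, hk₂.trans hk, ?_, ?_, ?_⟩
  · intro a ha
    rw [hw]
    exact hin _ (lat_iT_subset L (hcell a ha))
  · intro a ha a' ha' hH
    rw [hw, hw] at hH
    have h1 : lin v₂ a - lin v₂ a' ∈ H.comap ψ' := by
      show ψ (lin v (lin v₂ a - lin v₂ a')) ∈ H
      rw [map_sub, map_sub]
      exact hH
    have h2 : lin v₂ a = lin v₂ a' :=
      eq_of_quarter T (H.comap ψ') (t := 1 / 4) (by norm_num) le_rfl (hin₂ a ha) (hin₂ a' ha') h1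
    exact lin_inj hv₂ h2
  · have h1 : (img ψ H (lat B)).ncard ≤ F₁.card * (img ψ' H (bx (fun i => 2 * L i))).ncard :=
      ncard_img_comp ψ H (bx_finite _) (lin v) F₁ hcov₁
    have hXfin : (lat ((4 * ((k : ℝ) + 1)) • ell T)).Finite := (ell_sym T).finite _
    have h2 : (img ψ' H (bx (fun i => 2 * L i))).ncard ≤
        (img ψ' H (lat ((4 * ((k : ℝ) + 1)) • ell T))).ncard :=
      Set.ncard_le_ncard (img_mono ψ' H (bx_two_subset L)) (img_finite ψ' H hXfin)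
    have h3 : (img ψ' H (lat ((4 * ((k : ℝ) + 1)) • ell T))).ncard ≤
        F₂.card * (img ψ' H (lat (ell T))).ncard :=
      ncard_le_translates ψ' H (lat_finite (ell_compact T).isBounded) F₂ hcov₂
    have h4 : (img ψ' H (lat (ell T))).ncard ≤ num (kcell T ψ' H) 1 * Nat.card H := by
      rw [← img_cell]
      have h5 := ncard_img_le ψ' H (S := lat (kcell T ψ' H))
        ((lat_finite (ell_compact T).isBounded).subset (lat_mono (cell_subset T _)))
      unfold num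
      rw [one_smul]
      exact h5
    have h6 : num (kcell T ψ' H) 1 ≤ 16 ^ k * num (kcell T ψ' H) (1 / 4) := by
      have h7 := num_pow (kcell_sym T ψ' H) (t := 1 / 4) (by norm_num) 2
      norm_num at h7
      exact h7
    have h8 : num (kcell T ψ' H) (1 / 4) ≤ (4 * k₂ ^ 3) ^ k₂ * (bx L₂).ncard := hc₂
    calc (img ψ H (lat B)).ncard
        ≤ F₁.card * (F₂.card * (num (kcell T ψ' H) 1 * Nat.card H)) :=
          h1.trans (Nat.mul_le_mul_left _ (h2.trans (h3.trans (Nat.mul_le_mul_left _ h4))))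
      _ ≤ (4 ^ n * (4 * k ^ 3) ^ k) * ((12 * (k + 1)) ^ k *
          ((16 ^ k * ((4 * k₂ ^ 3) ^ k₂ * (bx L₂).ncard)) * Nat.card H)) :=
          Nat.mul_le_mul hF₁ (Nat.mul_le_mul hF₂' (Nat.mul_le_mul_right _
            (h6.trans (Nat.mul_le_mul_left _ h8))))
      _ = ((4 ^ n * (4 * k ^ 3) ^ k) * ((12 * (k + 1)) ^ k * (16 ^ k * (4 * k₂ ^ 3) ^ k₂))) *
          (Nat.card H * (bx L₂).ncard) := by ring
      _ ≤ loss n * (Nat.card H * (bx L₂).ncard) := Nat.mul_le_mul_right _ (loss_bound hk hk₂)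

end H104.BS
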