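import Pool.Agent.H104.BS.B
import Pool.Agent.TH858.GP.Coset

/-!
# Bohr sets in improper convex coset progressions of `ℤ/N`
-/

set_option autoImplicit false

namespace H104.BS

open Finset Pool.Agent.Y806.DF Q123.VP H104.MC Pool.Agent.TH858

variable {n N : ℕ}

theorem ev_eq (ψ : (Fin n → ℤ) →+ ZMod N) {k : ℕ} (w : Fin k → (Fin n → ℤ)) (m : Fin k → ℤ) :
    GP.ev (fun j => ψ (w j)) m = ψ (lin w m) := by
  have h1 : ψ (lin w m) = ψ (∑ j, m j • w j) := rfl
  rw [h1, map_sum]
  unfold GP.ev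
  refine sum_congr rfl fun j _ => ?_
  rw [map_zsmul, zsmul_eq_mul]

theorem bx_eq_box {k : ℕ} (L : Fin k → ℕ) : (bx L).ncard = (GP.box L).card := by
  rw [← Set.ncard_coe_finset]
  congr 1
  ext m
  rw [Finset.mem_coe, GP.mem_box]
  rfl

theorem log_loss {R : ℝ} (hR : (n : ℝ) + 2 ≤ R) : Real.log (loss n) ≤ 16 * n * Real.log R := by
  rcases Nat.eq_zero_or_pos n with h0 | h0
  · subst h0
    unfold loss
    simp
  · have hn1 : (1 : ℝ) ≤ n := by exact_mod_cast h0
    have hlogR : Real.log ((n : ℝ) + 2) ≤ Real.log R := Real.log_le_log (by positivity) hR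
    have h1 : (loss n : ℝ) ≤ ((n : ℝ) + 2) ^ (16 * n) := by
      unfold loss
      push_cast
      rw [pow_mul]
      refine pow_le_pow_left₀ (by positivity) ?_ n
      have h2 : (12288 : ℝ) ≤ ((n : ℝ) + 2) ^ 9 := by
        calc (12288 : ℝ) ≤ 3 ^ 9 := by norm_num
          _ ≤ ((n : ℝ) + 2) ^ 9 := pow_le_pow_left₀ (by norm_num) (by linarith) 9
      have h3 : ((n : ℝ) + 1) ^ 7 ≤ ((n : ℝ) + 2) ^ 7 := pow_le_pow_left₀ (by positivity) (by linarith) 7
      calc (12288 : ℝ) * ((n : ℝ) + 1) ^ 7 ≤ ((n : ℝ) + 2) ^ 9 * ((n : ℝ) + 2) ^ 7 :=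
            mul_le_mul h2 h3 (by positivity) (by positivity)
        _ = ((n : ℝ) + 2) ^ 16 := by ring
    have hpos : (0 : ℝ) < loss n := by
      unfold loss
      positivity
    calc Real.log (loss n) ≤ Real.log (((n : ℝ) + 2) ^ (16 * n)) := Real.log_le_log hpos h1
      _ = 16 * n * Real.log ((n : ℝ) + 2) := by
        rw [Real.log_pow]
        push_cast
        ring
      _ ≤ 16 * n * Real.log R := mul_le_mul_of_nonneg_left hlogR (by positivity)

/-- **Bohr sets in improper convex coset progressions.** -/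
theorem bohr_in_img [NeZero N] {B : Set (Fin n → ℝ)} (hB : Body B) (ψ : (Fin n → ℤ) →+ ZMod N)
    (H : AddSubgroup (ZMod N)) {R : ℝ} (hR : (n : ℝ) + 2 ≤ R) :
    ∃ G : Finset (ZMod N), (G.card : ℝ) ≤ 255 * n + 1 +
        5 * (Real.log (N / (img ψ H (lat B)).ncard) / Real.log R) ∧
      ∀ x : ZMod N, (∀ g ∈ G, CB.nn (g * x) ≤ 1 / (8 * R)) → x ∈ img ψ H (lat B) := by
  obtain ⟨k, w, L, hk, hin, hprop, hc⟩ := inner_proper hB ψ H
  have hkR : (k : ℝ) ≤ n := by exact_mod_cast hk
  have hn0 : (0 : ℝ) ≤ n := Nat.cast_nonneg n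
  have hlogR : 0 < Real.log R := Real.log_pos (by linarith)
  obtain ⟨G, h1, h2⟩ := GP.coset H (fun j => ψ (w j)) L (by
    intro m m' hm hm' h
    rw [ev_eq, ev_eq] at h
    exact hprop m hm m' hm' h) R (by linarith)
  refine ⟨G, h1.trans ?_, ?_⟩
  · have hNpos : (0 : ℝ) < N := by exact_mod_cast NeZero.pos N
    have hP : 0 < (img ψ H (lat B)).ncard := by
      rw [Set.ncard_pos (Set.toFinite _)]
      refine ⟨ψ 0 + 0, 0, ?_, 0, H.zero_mem, rfl⟩
      show re 0 ∈ B
      have h0 : re (0 : Fin n → ℤ) = 0 := by funext i; simp [re]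
      rw [h0]
      exact (sym_of_body hB).zero
    have hPr : (0 : ℝ) < (img ψ H (lat B)).ncard := by exact_mod_cast hP
    have hHpos : (0 : ℝ) < Nat.card H := by exact_mod_cast Nat.card_pos
    have hbpos : (0 : ℝ) < (GP.box L).card := by
      rw [GP.card_box]
      push_cast
      positivity
    have hlpos : (0 : ℝ) < loss n := by
      unfold loss
      positivity
    have hc' : ((img ψ H (lat B)).ncard : ℝ) ≤ loss n * (Nat.card H * (GP.box L).card) := by
      rw [← bx_eq_box]
      exact_mod_cast hc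
    have h3 : (N : ℝ) / (Nat.card H * (GP.box L).card) ≤ loss n * (N / (img ψ H (lat B)).ncard) := by
      rw [mul_div_assoc', div_le_div_iff₀ (by positivity) hPr]
      calc (N : ℝ) * (img ψ H (lat B)).ncard ≤ N * (loss n * (Nat.card H * (GP.box L).card)) :=
            mul_le_mul_of_nonneg_left hc' hNpos.le
        _ = _ := by ring
    have h4 : Real.log ((N : ℝ) / (Nat.card H * (GP.box L).card)) ≤
        16 * n * Real.log R + Real.log (N / (img ψ H (lat B)).ncard) := by
      have h5 := Real.log_le_log (by positivity) h3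
      rw [Real.log_mul hlpos.ne' (by positivity)] at h5
      have h6 := log_loss (n := n) hR
      linarith
    have h7 : Real.log ((N : ℝ) / (Nat.card H * (GP.box L).card)) / Real.log R ≤
        16 * n + Real.log (N / (img ψ H (lat B)).ncard) / Real.log R := by
      calc Real.log ((N : ℝ) / (Nat.card H * (GP.box L).card)) / Real.log R
          ≤ (16 * n * Real.log R + Real.log (N / (img ψ H (lat B)).ncard)) / Real.log R :=
            div_le_div_of_nonneg_right h4 hlogR.le
        _ = _ := by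
          rw [add_div, mul_div_assoc, div_self hlogR.ne', mul_one]
    linarith
  · intro x hx
    obtain ⟨y, hy, m, hm, hxy⟩ := h2 x hx
    rw [ev_eq] at hxy
    exact ⟨lin w m, hin m hm, y, hy, by rw [hxy, add_comm]⟩

end H104.BS
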