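import Pool.Agent.H104.BS.C

/-!
# Bohr sets as convex coset progressions
-/

set_option autoImplicit false

namespace H104.BS

open Finset Pool.Agent.Y806.DF Q123.VP H104.MC Pool.Agent.TH858

/-- A body given by finitely many linear functionals. -/
def slab {d : ℕ} (f : Fin d → ((Fin d → ℝ) →ₗ[ℝ] ℝ)) (c : Fin d → ℝ) : Set (Fin d → ℝ) :=
  {y | ∀ j, |f j y| ≤ c j}

theorem slab_body {d : ℕ} (f : Fin d → ((Fin d → ℝ) →ₗ[ℝ] ℝ)) (c : Fin d → ℝ) (hc : ∀ j, 0 < c j)
    {R : ℝ} (hR : ∀ y ∈ slab f c, ∀ j, |y j| ≤ R) : Body (slab f c) := by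
  have hcont : ∀ j, Continuous fun y => |f j y| := fun j =>
    (LinearMap.continuous_of_finiteDimensional (f j)).abs
  refine ⟨?_, ?_, ?_, ?_⟩
  · intro y hy z hz a b ha hb hab j
    rw [map_add, map_smul, map_smul, smul_eq_mul, smul_eq_mul]
    calc |a * f j y + b * f j z| ≤ |a * f j y| + |b * f j z| := abs_add_le _ _
      _ = a * |f j y| + b * |f j z| := by rw [abs_mul, abs_mul, abs_of_nonneg ha, abs_of_nonneg hb]
      _ ≤ a * c j + b * c j := add_le_add (mul_le_mul_of_nonneg_left (hy j) ha)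
          (mul_le_mul_of_nonneg_left (hz j) hb)
      _ = c j := by rw [← add_mul, hab, one_mul]
  · refine Metric.isCompact_of_isClosed_isBounded ?_ ?_
    · have h1 : slab f c = ⋂ j, {y | |f j y| ≤ c j} := by
        ext y
        simp [slab]
      rw [h1]
      exact isClosed_iInter fun j => isClosed_le (hcont j) continuous_const
    · refine (Metric.isBounded_closedBall (x := (0 : Fin d → ℝ)) (r := max R 0)).subset ?_
      intro y hy
      rw [mem_closedBall_zero_iff, pi_norm_le_iff_of_nonneg (le_max_right _ _)]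
      intro j
      rw [Real.norm_eq_abs]
      exact (hR y hy j).trans (le_max_left _ _)
  · refine ⟨0, ?_⟩
    rw [mem_interior]
    refine ⟨⋂ j, {y | |f j y| < c j}, ?_, ?_, ?_⟩
    · intro y hy j
      exact le_of_lt (Set.mem_iInter.1 hy j)
    · exact isOpen_iInter_of_finite fun j => isOpen_lt (hcont j) continuous_const
    · rw [Set.mem_iInter]
      intro j
      show |f j 0| < c j
      rw [map_zero, abs_zero]
      exact hc j
  · intro y hy j
    rw [map_neg, abs_neg]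
    exact hy j

variable {N : ℕ}

/-- The functionals of a Bohr set. -/
noncomputable def fnl {d : ℕ} (v : Fin d → ZMod N) : Fin (d + 1) → ((Fin (d + 1) → ℝ) →ₗ[ℝ] ℝ) :=
  Fin.cons (LinearMap.proj 0) fun i =>
    ((((v i).val : ℝ) / N) • LinearMap.proj 0) - LinearMap.proj i.succ

/-- The widths. -/
noncomputable def wid (N : ℕ) (d : ℕ) (ε : ℝ) : Fin (d + 1) → ℝ := Fin.cons (N : ℝ) fun _ => ε

theorem fnl_zero {d : ℕ} (v : Fin d → ZMod N) (y : Fin (d + 1) → ℝ) : fnl v 0 y = y 0 := rfl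

theorem fnl_succ {d : ℕ} (v : Fin d → ZMod N) (i : Fin d) (y : Fin (d + 1) → ℝ) :
    fnl v i.succ y = ((v i).val : ℝ) / N * y 0 - y i.succ := rfl

/-- The homomorphism. -/
def hom0 (N d : ℕ) : (Fin (d + 1) → ℤ) →+ ZMod N :=
  (Int.castAddHom (ZMod N)).comp (Pi.evalAddMonoidHom (fun _ : Fin (d + 1) => ℤ) 0)

theorem hom0_apply {d : ℕ} (z : Fin (d + 1) → ℤ) : hom0 N d z = (z 0 : ZMod N) := rfl

theorem bohr_body [NeZero N] {d : ℕ} (v : Fin d → ZMod N) {ε : ℝ} (hε : 0 < ε) :
    Body (slab (fnl v) (wid N d ε)) := by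
  have hN : (0 : ℝ) < N := by exact_mod_cast NeZero.pos N
  refine slab_body _ _ ?_ (R := ε + N) ?_
  · intro j
    refine Fin.cases ?_ (fun i => ?_) j
    · exact hN
    · exact hε
  · intro y hy j
    have h0 : |y 0| ≤ N := hy 0
    refine Fin.cases ?_ (fun i => ?_) j
    · linarith
    · have h1 : |((v i).val : ℝ) / N * y 0 - y i.succ| ≤ ε := hy i.succ
      have h2 : ((v i).val : ℝ) ≤ N := by exact_mod_cast (ZMod.val_lt (v i)).le
      have h3 : |((v i).val : ℝ) / N * y 0| ≤ N := by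
        rw [abs_mul, abs_of_nonneg (by positivity)]
        calc ((v i).val : ℝ) / N * |y 0| ≤ 1 * N :=
              mul_le_mul ((div_le_one hN).2 h2) h0 (abs_nonneg _) zero_le_one
          _ = N := one_mul _
      rw [abs_le] at h1 h3 ⊢
      constructor <;> linarith

theorem bohr_incl [NeZero N] {d : ℕ} (v : Fin d → ZMod N) {ε : ℝ} {x : ZMod N}
    (hx : x ∈ img (hom0 N d) ⊥ (lat (slab (fnl v) (wid N d ε)))) (i : Fin d) :
    CB.nn (v i * x) ≤ ε := by
  obtain ⟨z, hz, h, hh, rfl⟩ := hx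
  rw [AddSubgroup.mem_bot] at hh
  subst hh
  rw [add_zero, hom0_apply]
  have h1 : |((v i).val : ℝ) / N * (z 0 : ℝ) - (z i.succ : ℝ)| ≤ ε := hz i.succ
  have h2 : ((((v i).val : ℤ) * z 0 : ℤ) : ZMod N) = v i * (z 0 : ZMod N) := by
    push_cast
    rw [ZMod.natCast_zmod_val]
  rw [← CB.nint_eq_nn _ _ h2]
  unfold CB.nint
  refine (round_le _ (z i.succ)).trans ?_
  refine le_trans (le_of_eq ?_) h1
  push_cast
  congr 1
  ring

theorem bohr_size [NeZero N] {d : ℕ} (v : Fin d → ZMod N) {ε : ℝ} (hε : 0 < ε) {M : ℕ} (hM : 0 < M)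
    (hMε : 1 ≤ M * ε) :
    (N : ℝ) / (M : ℝ) ^ d ≤ (img (hom0 N d) ⊥ (lat (slab (fnl v) (wid N d ε)))).ncard := by
  classical
  have hN : (0 : ℝ) < N := by exact_mod_cast NeZero.pos N
  have hMr : (0 : ℝ) < M := by exact_mod_cast hM
  let t : ZMod N → Fin d → ℝ := fun x i => ((v i).val : ℝ) / N * x.val
  let κ : ZMod N → Fin d → ℕ := fun x i => ⌊(M : ℝ) * Int.fract (t x i)⌋₊
  have hκ : ∀ x ∈ (univ : Finset (ZMod N)), κ x ∈ Fintype.piFinset fun _ : Fin d => range M := by
    intro x _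
    rw [Fintype.mem_piFinset]
    intro i
    rw [mem_range]
    have h1 : (M : ℝ) * Int.fract (t x i) < M := by
      have := Int.fract_lt_one (t x i)
      nlinarith
    exact (Nat.floor_lt (mul_nonneg hMr.le (Int.fract_nonneg _))).2 h1
  have hcard : (Fintype.piFinset fun _ : Fin d => range M).card = M ^ d := by
    rw [Fintype.card_piFinset]
    simp
  obtain ⟨y, hy, hfib⟩ := exists_le_card_fiber_of_nsmul_le_card_of_maps_to
    (b := (N : ℝ) / (M : ℝ) ^ d) hκ (by
      rw [← card_pos, hcard]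
      positivity) (by
      rw [hcard, nsmul_eq_mul, card_univ, ZMod.card]
      push_cast
      rw [mul_div_cancel₀ _ (by positivity)])
  set F := (univ : Finset (ZMod N)).filter fun x => κ x = y with hF
  have hFne : F.Nonempty := by
    rw [← card_pos]
    have : (0 : ℝ) < F.card := lt_of_lt_of_le (by positivity) hfib
    exact_mod_cast this
  obtain ⟨x₀, hx₀⟩ := hFne
  refine hfib.trans ?_
  have hsub : (fun x => x - x₀) '' (F : Set (ZMod N)) ⊆
      img (hom0 N d) ⊥ (lat (slab (fnl v) (wid N d ε))) := by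
    rintro _ ⟨x, hx, rfl⟩
    rw [mem_coe] at hx
    have hκx : κ x = y := (mem_filter.1 hx).2
    have hκ0 : κ x₀ = y := (mem_filter.1 hx₀).2
    refine ⟨Fin.cons ((x.val : ℤ) - x₀.val) fun i => ⌊t x i⌋ - ⌊t x₀ i⌋, ?_, 0, AddSubgroup.zero_mem _, ?_⟩
    · intro j
      refine Fin.cases ?_ (fun i => ?_) j
      · show |(((x.val : ℤ) - x₀.val : ℤ) : ℝ)| ≤ N
        have h1 := ZMod.val_lt x
        have h2 := ZMod.val_lt x₀
        have h3 : |((x.val : ℤ) - x₀.val : ℤ)| ≤ N := by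
          rw [abs_le]
          constructor <;> omega
        exact_mod_cast h3
      · show |((v i).val : ℝ) / N * (((x.val : ℤ) - x₀.val : ℤ) : ℝ) -
          ((⌊t x i⌋ - ⌊t x₀ i⌋ : ℤ) : ℝ)| ≤ ε
        have h1 : ((v i).val : ℝ) / N * (((x.val : ℤ) - x₀.val : ℤ) : ℝ) -
            ((⌊t x i⌋ - ⌊t x₀ i⌋ : ℤ) : ℝ) = Int.fract (t x i) - Int.fract (t x₀ i) := by
          unfold Int.fract
          push_cast
          simp only [t]
          ring
        rw [h1]
        have h2 : ⌊(M : ℝ) * Int.fract (t x i)⌋₊ = ⌊(M : ℝ) * Int.fract (t x₀ i)⌋₊ := by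
          have := congrFun (hκx.trans hκ0.symm) i
          exact this
        have h3 : (0 : ℝ) ≤ M * Int.fract (t x i) := mul_nonneg hMr.le (Int.fract_nonneg _)
        have h4 : (0 : ℝ) ≤ M * Int.fract (t x₀ i) := mul_nonneg hMr.le (Int.fract_nonneg _)
        have h5 := Nat.floor_le h3
        have h6 := Nat.lt_floor_add_one ((M : ℝ) * Int.fract (t x i))
        have h7 := Nat.floor_le h4
        have h8 := Nat.lt_floor_add_one ((M : ℝ) * Int.fract (t x₀ i))
        rw [h2] at h5 h6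
        have h9 : |(M : ℝ) * (Int.fract (t x i) - Int.fract (t x₀ i))| ≤ M * ε := by
          rw [abs_le]
          constructor <;> nlinarith
        rw [abs_mul, abs_of_pos hMr] at h9
        exact le_of_mul_le_mul_left h9 hMr
    · rw [hom0_apply, add_zero]
      show x - x₀ = (((x.val : ℤ) - x₀.val : ℤ) : ZMod N)
      push_cast
      rw [ZMod.natCast_zmod_val, ZMod.natCast_zmod_val]
  have h1 : ((fun x => x - x₀) '' (F : Set (ZMod N))).ncard = F.card := by
    rw [Set.ncard_image_of_injective _ (sub_left_injective), Set.ncard_coe_finset]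
  have h2 := Set.ncard_le_ncard hsub (Set.toFinite _)
  rw [h1] at h2
  exact_mod_cast h2

/-- **Bohr sets are convex coset progressions.** -/
theorem prog_of_bohr [NeZero N] (G : Finset (ZMod N)) {ε : ℝ} (hε : 0 < ε) :
    ∃ (B : Set (Fin (G.card + 1) → ℝ)) (ψ : (Fin (G.card + 1) → ℤ) →+ ZMod N), Body B ∧
      (∀ x ∈ img ψ ⊥ (lat B), ∀ g ∈ G, CB.nn (g * x) ≤ ε) ∧
      Real.log (N / (img ψ ⊥ (lat B)).ncard) ≤ G.card * Real.log (1 / ε + 1) := by
  have hN : (0 : ℝ) < N := by exact_mod_cast NeZero.pos N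
  obtain ⟨M, hMd⟩ : ∃ M : ℕ, M = ⌈1 / ε⌉₊ := ⟨_, rfl⟩
  have h1ε : 0 < 1 / ε := by positivity
  have hM : 0 < M := by
    rw [hMd]
    exact Nat.ceil_pos.2 h1ε
  have hM1 : 1 / ε ≤ M := by
    rw [hMd]
    exact Nat.le_ceil _
  have hM2 : (M : ℝ) ≤ 1 / ε + 1 := by
    rw [hMd]
    exact (Nat.ceil_lt_add_one h1ε.le).le
  have hMr : (0 : ℝ) < M := by exact_mod_cast hM
  let v : Fin G.card → ZMod N := fun i => ((G.equivFin.symm i : G) : ZMod N)
  refine ⟨slab (fnl v) (wid N G.card ε), hom0 N G.card, bohr_body v hε, ?_, ?_⟩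
  · intro x hx g hg
    have h1 := bohr_incl v hx (G.equivFin ⟨g, hg⟩)
    have h2 : v (G.equivFin ⟨g, hg⟩) = g := by
      show ((G.equivFin.symm (G.equivFin ⟨g, hg⟩) : G) : ZMod N) = g
      rw [Equiv.symm_apply_apply]
    rwa [h2] at h1
  · have h1 := bohr_size v hε hM (by
      rw [div_le_iff₀ hε] at hM1
      exact hM1)
    set P := (img (hom0 N G.card) ⊥ (lat (slab (fnl v) (wid N G.card ε)))).ncard with hP
    have hPpos : (0 : ℝ) < P := lt_of_lt_of_le (by positivity) h1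
    have h2 : (N : ℝ) / P ≤ (M : ℝ) ^ G.card := by
      rw [div_le_iff₀ (by positivity)] at h1
      rw [div_le_iff₀ hPpos, mul_comm]
      exact h1
    calc Real.log (N / P) ≤ Real.log ((M : ℝ) ^ G.card) := Real.log_le_log (by positivity) h2
      _ = G.card * Real.log M := by rw [Real.log_pow]
      _ ≤ G.card * Real.log (1 / ε + 1) :=
          mul_le_mul_of_nonneg_left (Real.log_le_log hMr hM2) (Nat.cast_nonneg _)

end H104.BS
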