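import Pool.Agent.H104.BS.C
import Pool.Agent.TH858.GP.Dense2

/-!
# Sets that are dense on a translate of an improper convex coset progression
-/

set_option autoImplicit false

namespace H104.BS

open Finset MeasureTheory Pool.Agent.Y806.DF Q123.VP H104.MC Pool.Agent.TH858
open scoped Pointwise ENNReal

variable {n N : ℕ}

theorem body_smul {B : Set (Fin n → ℝ)} (hB : Body B) {r : ℝ} (hr : 0 < r) : Body (r • B) := by
  have hS := (sym_of_body hB).smul r
  refine ⟨hS.conv, hS.comp, ?_, hS.symm⟩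
  rw [interior_smul₀ hr.ne']
  exact hB.2.2.1.smul_set

theorem body_volume_pos {B : Set (Fin n → ℝ)} (hB : Body B) : 0 < (volume B).toReal := by
  rw [ENNReal.toReal_pos_iff]
  refine ⟨?_, hB.2.1.measure_lt_top⟩
  exact lt_of_lt_of_le (isOpen_interior.measure_pos volume hB.2.2.1) (measure_mono interior_subset)

/-- The dilate by `r` has a proportion at least `(r / 3) ^ n`. -/
theorem dilate {Γ : Type*} [AddCommGroup Γ] {B : Set (Fin n → ℝ)} (hB : Body B)
    (ψ : (Fin n → ℤ) →+ Γ) (H : AddSubgroup Γ) [Finite H] {r : ℝ} (hr : 0 < r) (hr1 : r ≤ 1) :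
    ((img ψ H (lat B)).ncard : ℝ) ≤ (3 / r) ^ n * (img ψ H (lat (r • B))).ncard := by
  have hS := sym_of_body hB
  have hrB := body_smul hB hr
  have hvol : (volume (r • B)).toReal = r ^ n * (volume B).toReal := by
    rw [Measure.addHaar_smul, Module.finrank_fin_fun, ENNReal.toReal_mul,
      ENNReal.toReal_ofReal (abs_nonneg _), abs_of_nonneg (by positivity)]
  have hsub : r • B ⊆ B := by
    have h1 := hS.mono (s := r) (t := 1) hr.le hr1
    rwa [one_smul] at h1
  obtain ⟨F, hF, hcov⟩ := cover_volume hS (hS.smul r) hsub (body_volume_pos hrB)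
    (c := (1 / r) ^ n) (by
      rw [hvol, ← mul_assoc, ← mul_pow, one_div, inv_mul_cancel₀ hr.ne', one_pow, one_mul])
  have h1 := ncard_le_translates ψ H (lat_finite hrB.2.1.isBounded) F hcov
  have h2 : (F.card : ℝ) ≤ (3 / r) ^ n := by
    refine hF.trans (le_of_eq ?_)
    rw [← mul_pow]
    congr 1
    ring
  calc ((img ψ H (lat B)).ncard : ℝ) ≤ F.card * (img ψ H (lat (r • B))).ncard := by exact_mod_cast h1
    _ ≤ _ := mul_le_mul_of_nonneg_right h2 (Nat.cast_nonneg _)

/-- Averaging over translates. -/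
theorem average {G : Type*} [AddCommGroup G] [DecidableEq G] (A Q S : Finset G) {δ : ℝ} (hS : S.Nonempty)
    (hsub : ∀ y ∈ A, ∀ q ∈ Q, y - q ∈ S) (hdens : δ * S.card ≤ A.card) :
    ∃ x ∈ S, δ * Q.card ≤ (A.filter fun y => y - x ∈ Q).card := by
  by_contra hcon
  push Not at hcon
  have h1 : ∑ x ∈ S, ((A.filter fun y => y - x ∈ Q).card : ℝ) < ∑ _x ∈ S, δ * (Q.card : ℝ) :=
    sum_lt_sum_of_nonempty hS hcon
  have h2 : ∑ x ∈ S, (A.filter fun y => y - x ∈ Q).card = ∑ y ∈ A, (S.filter fun x => y - x ∈ Q).card := by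
    simp only [card_filter]
    exact sum_comm
  have h3 : ∀ y ∈ A, (S.filter fun x => y - x ∈ Q).card = Q.card := by
    intro y hy
    refine card_bij (fun x _ => y - x) ?_ ?_ ?_
    · intro x hx
      exact (mem_filter.1 hx).2
    · intro x _ x' _ h
      have h' : y - x = y - x' := h
      exact sub_right_injective h'
    · intro q hq
      refine ⟨y - q, mem_filter.2 ⟨hsub y hy q hq, ?_⟩, ?_⟩
      · rw [sub_sub_cancel]
        exact hq
      · rw [sub_sub_cancel]
  rw [sum_congr rfl h3, sum_const, smul_eq_mul] at h2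
  have h4 : ∑ x ∈ S, ((A.filter fun y => y - x ∈ Q).card : ℝ) = A.card * Q.card := by
    rw [← Nat.cast_sum, h2, Nat.cast_mul]
  rw [h4, sum_const, nsmul_eq_mul] at h1
  have h5 : (S.card : ℝ) * (δ * Q.card) = (δ * S.card) * Q.card := by ring
  rw [h5] at h1
  have h6 : δ * S.card * Q.card ≤ A.card * Q.card :=
    mul_le_mul_of_nonneg_right hdens (Nat.cast_nonneg _)
  linarith

/-- **Sets that are dense on a translate of an improper convex coset progression.** -/
theorem dense_img [NeZero N] {B : Set (Fin n → ℝ)} (hB : Body B) (ψ : (Fin n → ℤ) →+ ZMod N)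
    (H : AddSubgroup (ZMod N)) {r δ R : ℝ} (hr : 0 < r) (hr1 : r ≤ 1) (hδ : 0 < δ)
    (hR : (n : ℝ) + 3 ≤ R) (hδR : 1 ≤ δ * R) (A : Finset (ZMod N)) (t : ZMod N)
    (hA : ∀ y ∈ A, y - t ∈ img ψ H (lat B))
    (hdens : δ * (img ψ H (lat ((1 + r) • B))).ncard ≤ A.card) :
    ∃ G : Finset (ZMod N), (G.card : ℝ) ≤ 380 * n + 301 +
        5 * ((Real.log (N / (img ψ H (lat B)).ncard) + n * Real.log (1 / r)) / Real.log R) + 32 / δ ^ 2 ∧
      ∀ x : ZMod N, (∀ g ∈ G, CB.nn (g * x) ≤ 1 / (8 * R)) →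
        ∃ a₁ ∈ A, ∃ a₂ ∈ A, ∃ a₃ ∈ A, ∃ a₄ ∈ A, x = a₁ + a₂ - a₃ - a₄ := by
  classical
  have hS := sym_of_body hB
  have hrB := body_smul hB hr
  have hn0 : (0 : ℝ) ≤ n := Nat.cast_nonneg n
  have hlogR : 0 < Real.log R := Real.log_pos (by linarith)
  have hNpos : (0 : ℝ) < N := by exact_mod_cast NeZero.pos N
  obtain ⟨k, w, L, hk, hin, hprop, hc⟩ := inner_proper hrB ψ H
  have hkn : (k : ℝ) ≤ n := by exact_mod_cast hk
  obtain ⟨h, hh⟩ : ∃ h : ℕ, h = Nat.card H := ⟨_, rfl⟩
  have hhpos : 0 < h := by rw [hh]; exact Nat.card_pos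
  obtain ⟨g₀, hg₀⟩ := IsAddCyclic.exists_generator (α := H)
  have hord : addOrderOf g₀ = h := by
    rw [hh]
    exact addOrderOf_eq_card_of_forall_mem_zmultiples hg₀
  obtain ⟨g, hg⟩ : ∃ g : ZMod N, g = (g₀ : ZMod N) := ⟨_, rfl⟩
  have hgH : g ∈ H := by rw [hg]; exact g₀.2
  have hordg : addOrderOf g = h := by
    rw [hg, ← hord]
    exact AddSubgroup.addOrderOf_coe g₀
  let a : Fin (k + 1) → ZMod N := Fin.cons g fun j => ψ (w j)
  let L' : Fin (k + 1) → ℕ := Fin.cons ((h - 1) / 2) L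
  have hev : ∀ m : Fin (k + 1) → ℤ, GP.ev a m = (m 0 : ZMod N) * g + ψ (lin w (Fin.tail m)) := by
    intro m
    unfold GP.ev
    rw [Fin.sum_univ_succ, ← ev_eq]
    rfl
  have htail : ∀ m ∈ GP.box L', |m 0| ≤ (((h - 1) / 2 : ℕ) : ℤ) ∧ Fin.tail m ∈ bx L := by
    intro m hm
    rw [GP.mem_box] at hm
    exact ⟨hm 0, fun i => hm i.succ⟩
  have hinj : Set.InjOn (GP.ev a) (GP.box L') := by
    intro m hm m' hm' heq
    rw [mem_coe] at hm hm'
    obtain ⟨h1, h2⟩ := htail m hm
    obtain ⟨h3, h4⟩ := htail m' hm'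
    rw [hev, hev] at heq
    have h5 : ψ (lin w (Fin.tail m)) - ψ (lin w (Fin.tail m')) = ((m' 0 - m 0 : ℤ) : ZMod N) * g := by
      push_cast
      rw [sub_mul]
      have : ψ (lin w (Fin.tail m)) = (m' 0 : ZMod N) * g + ψ (lin w (Fin.tail m')) - (m 0 : ZMod N) * g := by
        rw [← heq]; ring
      rw [this]; ring
    have h6 : ((m' 0 - m 0 : ℤ) : ZMod N) * g = (m' 0 - m 0) • g := by rw [zsmul_eq_mul]
    have h7 : Fin.tail m = Fin.tail m' := by
      refine hprop _ h2 _ h4 ?_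
      rw [h5, h6]
      exact H.zsmul_mem hgH _
    rw [h7, sub_self] at h5
    rw [h6] at h5
    have h8 : (addOrderOf g : ℤ) ∣ (m' 0 - m 0) := addOrderOf_dvd_iff_zsmul_eq_zero.2 h5.symm
    rw [hordg] at h8
    have h9 : m' 0 - m 0 = 0 := by
      refine Int.eq_zero_of_abs_lt_dvd h8 ?_
      rw [abs_le] at h1 h3
      rw [abs_lt]
      constructor <;> omega
    funext i
    refine Fin.cases ?_ (fun j => ?_) i
    · omega
    · exact congrFun h7 j
  obtain ⟨Q, hQ⟩ : ∃ Q : Finset (ZMod N), Q = GP.XX a L' := ⟨_, rfl⟩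
  have hQcard : Q.card = (2 * ((h - 1) / 2) + 1) * (GP.box L).card := by
    rw [hQ]
    unfold GP.XX
    rw [card_image_of_injOn hinj, GP.card_box, Fin.prod_univ_succ, GP.card_box]
    rfl
  have hQsub : ∀ q ∈ Q, q ∈ img ψ H (lat (r • B)) := by
    intro q hq
    rw [hQ] at hq
    obtain ⟨m, hm, rfl⟩ := mem_image.1 hq
    obtain ⟨h1, h2⟩ := htail m hm
    rw [hev]
    refine ⟨lin w (Fin.tail m), hin _ h2, (m 0 : ZMod N) * g, ?_, add_comm _ _⟩
    rw [← zsmul_eq_mul]
    exact H.zsmul_mem hgH _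
  have h2Q : h * (GP.box L).card ≤ 2 * Q.card := by
    rw [hQcard, ← mul_assoc]
    refine Nat.mul_le_mul_right _ ?_
    omega
  have hQpos : 0 < Q.card := by
    rw [hQcard, GP.card_box]
    positivity
  -- averaging
  have hSfin : (img ψ H (lat ((1 + r) • B))).Finite := Set.toFinite _
  obtain ⟨S, hSdef⟩ : ∃ S : Finset (ZMod N), S = hSfin.toFinset.image fun s => t + s := ⟨_, rfl⟩
  have hScard : S.card = (img ψ H (lat ((1 + r) • B))).ncard := by
    rw [hSdef, card_image_of_injective _ (add_right_injective t), Set.ncard_eq_toFinset_card _ hSfin]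
  have hSne : S.Nonempty := by
    rw [← card_pos, hScard, Set.ncard_pos hSfin]
    refine ⟨ψ 0 + 0, 0, ?_, 0, H.zero_mem, rfl⟩
    show re 0 ∈ (1 + r) • B
    have h0 : re (0 : Fin n → ℤ) = 0 := by funext i; simp [re]
    rw [h0]
    exact (hS.smul (1 + r)).zero
  obtain ⟨x₀, -, hx₀⟩ := average A Q S (δ := δ) hSne (by
    intro y hy q hq
    obtain ⟨z, hz, u, hu, e⟩ := hA y hy
    obtain ⟨z', hz', u', hu', rfl⟩ := hQsub q hq
    rw [hSdef]
    refine mem_image.2 ⟨ψ (z - z') + (u - u'), ?_, ?_⟩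
    · rw [Set.Finite.mem_toFinset]
      refine ⟨z - z', ?_, u - u', H.sub_mem hu hu', rfl⟩
      have h1 := hS.sub (s := 1) (t := r) zero_le_one hr.le (v := z) (w := z')
        (by rw [one_smul]; exact hz) hz'
      exact h1
    · have e' : y = t + (ψ z + u) := by rw [← e]; abel
      rw [e', map_sub]
      abel) (by rw [hScard]; exact hdens)
  obtain ⟨G, hG1, hG2⟩ := GP.dense a L' hinj R δ (by push_cast; linarith) hδ hδR
    (A.filter fun y => y - x₀ ∈ Q) x₀ (fun y hy => by
      rw [← hQ]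
      exact (mem_filter.1 hy).2) (by rw [← hQ]; exact hx₀)
  refine ⟨G, ?_, ?_⟩
  · rw [← hQ] at hG1
    have hP : 0 < (img ψ H (lat B)).ncard := by
      rw [Set.ncard_pos (Set.toFinite _)]
      refine ⟨ψ 0 + 0, 0, ?_, 0, H.zero_mem, rfl⟩
      show re 0 ∈ B
      have h0 : re (0 : Fin n → ℤ) = 0 := by funext i; simp [re]
      rw [h0]
      exact hS.zero
    have hPr : (0 : ℝ) < (img ψ H (lat B)).ncard := by exact_mod_cast hP
    have hQr : (0 : ℝ) < Q.card := by exact_mod_cast hQpos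
    have hlpos : (0 : ℝ) < loss n := by
      unfold loss
      positivity
    have hcQ : ((img ψ H (lat (r • B))).ncard : ℝ) ≤ loss n * (2 * Q.card) := by
      have h1 : (img ψ H (lat (r • B))).ncard ≤ loss n * (2 * Q.card) := by
        refine hc.trans (Nat.mul_le_mul_left _ ?_)
        rw [bx_eq_box, ← hh]
        exact h2Q
      exact_mod_cast h1
    have h1 := dilate hB ψ H hr hr1
    have h2 : (N : ℝ) / Q.card ≤ (3 / r) ^ n * (loss n * 2) * (N / (img ψ H (lat B)).ncard) := by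
      rw [mul_div_assoc', div_le_div_iff₀ hQr hPr]
      have h3 : ((img ψ H (lat B)).ncard : ℝ) ≤ (3 / r) ^ n * (loss n * (2 * Q.card)) :=
        h1.trans (mul_le_mul_of_nonneg_left hcQ (by positivity))
      calc (N : ℝ) * (img ψ H (lat B)).ncard ≤ N * ((3 / r) ^ n * (loss n * (2 * Q.card))) :=
            mul_le_mul_of_nonneg_left h3 hNpos.le
        _ = _ := by ring
    have hlog : Real.log ((N : ℝ) / Q.card) ≤ n * (Real.log 3 + Real.log (1 / r)) +
        (16 * n * Real.log R + Real.log 2) + Real.log (N / (img ψ H (lat B)).ncard) := by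
      have h3 := Real.log_le_log (by positivity) h2
      rw [Real.log_mul (by positivity) (by positivity), Real.log_mul (by positivity) (by positivity),
        Real.log_mul (by positivity) (by norm_num), Real.log_pow,
        show (3 : ℝ) / r = 3 * (1 / r) by ring, Real.log_mul (by norm_num) (by positivity)] at h3
      have h4 := log_loss (n := n) (R := R) (by linarith)
      linarith
    have hlog3 : Real.log 3 ≤ Real.log R := Real.log_le_log (by norm_num) (by linarith)
    have hlog2 : Real.log 2 ≤ Real.log R := Real.log_le_log (by norm_num) (by linarith)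
    have h5 : Real.log ((N : ℝ) / Q.card) / Real.log R ≤ 17 * n + 1 +
        (Real.log (N / (img ψ H (lat B)).ncard) + n * Real.log (1 / r)) / Real.log R := by
      rw [div_le_iff₀ hlogR, add_mul, div_mul_cancel₀ _ hlogR.ne']
      have h6 : (n : ℝ) * Real.log 3 ≤ n * Real.log R := mul_le_mul_of_nonneg_left hlog3 hn0
      linarith
    push_cast at hG1
    linarith
  · intro x hx
    obtain ⟨a₁, h3, a₂, h4, a₃, h5, a₄, h6, h7⟩ := hG2 x hx
    exact ⟨a₁, (mem_filter.1 h3).1, a₂, (mem_filter.1 h4).1, a₃, (mem_filter.1 h5).1, a₄,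
      (mem_filter.1 h6).1, h7⟩

end H104.BS
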